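import Mathlib

set_option autoImplicit false

/-!
`y`-monotone polygonal chains through grid points, as graphs of functions of `y`.
-/

namespace Pool.Agent.TH489.Up

/-- The point of the real plane given by a grid point. -/
def toPlane (p : ℤ × ℤ) : ℝ × ℝ := ((p.1 : ℝ), (p.2 : ℝ))

/-- The polygonal chain through the listed grid points: the union of the closed segments between
consecutive points. -/
def polyline : List (ℤ × ℤ) → Set (ℝ × ℝ)
  | [] => ∅
  | [p] => {toPlane p}
  | p :: q :: l => segment ℝ (toPlane p) (toPlane q) ∪ polyline (q :: l)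

noncomputable def lin (p q : ℤ × ℤ) (y : ℝ) : ℝ :=
  p.1 + ((q.1 : ℝ) - p.1) * ((y - p.2) / ((q.2 : ℝ) - p.2))

open Classical in
noncomputable def Fn : List (ℤ × ℤ) → ℝ → ℝ
  | [], _ => 0
  | [p], _ => p.1
  | p :: q :: l, y => if y ≤ (q.2 : ℝ) then lin p q y else Fn (q :: l) y

/-- heights strictly increase along the list -/
def Asc (l : List (ℤ × ℤ)) : Prop := l.Pairwise (fun p q => p.2 < q.2)

theorem lin_left (p q : ℤ × ℤ) : lin p q p.2 = p.1 := by
  unfold lin; simp

theorem lin_right {p q : ℤ × ℤ} (h : p.2 < q.2) : lin p q q.2 = q.1 := by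
  unfold lin
  have h' : (p.2 : ℝ) < q.2 := by exact_mod_cast h
  rw [div_self (by linarith)]
  ring

theorem lin_mem {p q : ℤ × ℤ} (h : p.2 < q.2) {t : ℝ} (h1 : (p.2 : ℝ) ≤ t) (h2 : t ≤ q.2) :
    (lin p q t, t) ∈ segment ℝ (toPlane p) (toPlane q) := by
  have h' : (p.2 : ℝ) < q.2 := by exact_mod_cast h
  have hd : 0 < (q.2 : ℝ) - p.2 := by linarith
  rw [segment_eq_image]
  refine ⟨(t - p.2) / ((q.2 : ℝ) - p.2), ⟨div_nonneg (by linarith) hd.le, ?_⟩, ?_⟩
  · rw [div_le_one hd]; linarith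
  · have hd' : (q.2 : ℝ) - p.2 ≠ 0 := hd.ne'
    unfold toPlane lin
    ext
    · simp
      ring
    · simp
      field_simp
      ring

theorem lin_between {p q : ℤ × ℤ} (h : p.2 < q.2) {t : ℝ} (h1 : (p.2 : ℝ) ≤ t) (h2 : t ≤ q.2) :
    ((p.1 : ℝ) ≤ lin p q t ∨ (q.1 : ℝ) ≤ lin p q t) ∧
      (lin p q t ≤ (p.1 : ℝ) ∨ lin p q t ≤ (q.1 : ℝ)) := by
  have h' : (p.2 : ℝ) < q.2 := by exact_mod_cast h
  have hd : 0 < (q.2 : ℝ) - p.2 := by linarith
  unfold lin
  generalize hs : (t - p.2) / ((q.2 : ℝ) - p.2) = s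
  have s0 : 0 ≤ s := by rw [← hs]; exact div_nonneg (by linarith) hd.le
  have s1 : s ≤ 1 := by rw [← hs, div_le_one hd]; linarith
  rcases le_total (p.1 : ℝ) q.1 with g | g
  · constructor
    · left; nlinarith
    · right; nlinarith
  · constructor
    · right; nlinarith
    · left; nlinarith

theorem lin_cont (p q : ℤ × ℤ) : Continuous (lin p q) := by
  unfold lin
  fun_prop

theorem Fn_head {p : ℤ × ℤ} {l : List (ℤ × ℤ)} (h : Asc (p :: l)) : Fn (p :: l) p.2 = p.1 := by
  cases l with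
  | nil => rfl
  | cons q l =>
    have hpq : p.2 < q.2 := (List.pairwise_cons.1 h).1 q (by simp)
    have : (p.2 : ℝ) ≤ q.2 := by exact_mod_cast hpq.le
    unfold Fn
    rw [if_pos this, lin_left]

theorem Fn_cont (l : List (ℤ × ℤ)) : ∀ p, Asc (p :: l) → Continuous (Fn (p :: l)) := by
  induction l with
  | nil =>
    intro p _
    have e : Fn [p] = fun _ => (p.1 : ℝ) := by funext y; rfl
    rw [e]; exact continuous_const
  | cons q l ih =>
    intro p h
    have hpq : p.2 < q.2 := (List.pairwise_cons.1 h).1 q (by simp)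
    have hq : Asc (q :: l) := (List.pairwise_cons.1 h).2
    have e : Fn (p :: q :: l) = fun y => if y ≤ (q.2 : ℝ) then lin p q y else Fn (q :: l) y := by
      funext y; rfl
    rw [e]
    apply Continuous.if_le (lin_cont p q) (ih q hq) continuous_id continuous_const
    intro y hy
    simp only [id] at hy
    rw [hy, lin_right hpq, Fn_head hq]

theorem Fn_point (l : List (ℤ × ℤ)) : ∀ p, Asc (p :: l) → ∀ P ∈ p :: l,
    Fn (p :: l) P.2 = P.1 := by
  induction l with
  | nil =>
    intro p _ P hP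
    simp at hP
    subst hP; rfl
  | cons q l ih =>
    intro p h P hP
    have hpq : p.2 < q.2 := (List.pairwise_cons.1 h).1 q (by simp)
    have hq : Asc (q :: l) := (List.pairwise_cons.1 h).2
    rcases List.mem_cons.1 hP with rfl | hP
    · exact Fn_head h
    · have e := ih q hq P hP
      by_cases c : (P.2 : ℝ) ≤ q.2
      · have hPq : P = q := by
          rcases List.mem_cons.1 hP with rfl | hP'
          · rfl
          · have := (List.pairwise_cons.1 hq).1 P hP'
            have h2 : (q.2 : ℝ) < P.2 := by exact_mod_cast this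
            linarith
        subst hPq
        unfold Fn
        rw [if_pos le_rfl, lin_right hpq]
      · unfold Fn
        rw [if_neg c]
        exact e

theorem Fn_range (l : List (ℤ × ℤ)) : ∀ p, Asc (p :: l) → ∀ t : ℝ, (p.2 : ℝ) ≤ t →
    t ≤ (((p :: l).getLast (by simp)).2 : ℝ) →
    (Fn (p :: l) t, t) ∈ polyline (p :: l) ∧ (∃ P ∈ p :: l, (P.1 : ℝ) ≤ Fn (p :: l) t) ∧
      (∃ P ∈ p :: l, Fn (p :: l) t ≤ (P.1 : ℝ)) := by
  induction l with
  | nil =>
    intro p _ t h1 h2
    simp at h2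
    have e : t = p.2 := le_antisymm h2 h1
    subst e
    refine ⟨?_, ⟨p, by simp, le_rfl⟩, ⟨p, by simp, le_rfl⟩⟩
    show _ ∈ ({toPlane p} : Set _)
    rfl
  | cons q l ih =>
    intro p h t h1 h2
    have hpq : p.2 < q.2 := (List.pairwise_cons.1 h).1 q (by simp)
    have hq : Asc (q :: l) := (List.pairwise_cons.1 h).2
    by_cases c : t ≤ (q.2 : ℝ)
    · have e : Fn (p :: q :: l) t = lin p q t := by
        unfold Fn; rw [if_pos c]
      rw [e]
      have hb := lin_between hpq h1 c
      refine ⟨Or.inl (lin_mem hpq h1 c), ?_, ?_⟩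
      · rcases hb.1 with g | g
        · exact ⟨p, by simp, g⟩
        · exact ⟨q, by simp, g⟩
      · rcases hb.2 with g | g
        · exact ⟨p, by simp, g⟩
        · exact ⟨q, by simp, g⟩
    · have e : Fn (p :: q :: l) t = Fn (q :: l) t := by
        rw [Fn]; rw [if_neg c]
      rw [e]
      have h2' : t ≤ (((q :: l).getLast (by simp)).2 : ℝ) := by
        rw [List.getLast_cons (by simp)] at h2
        exact h2
      obtain ⟨m1, ⟨P, hP, hP2⟩, ⟨Q, hQ, hQ2⟩⟩ := ih q hq t (not_le.1 c).le h2'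
      exact ⟨Or.inr m1, ⟨P, List.mem_cons_of_mem _ hP, hP2⟩, ⟨Q, List.mem_cons_of_mem _ hQ, hQ2⟩⟩

theorem last_ge (l : List (ℤ × ℤ)) : ∀ p, Asc (p :: l) → ∀ P ∈ p :: l,
    p.2 ≤ P.2 ∧ P.2 ≤ ((p :: l).getLast (by simp)).2 := by
  induction l with
  | nil =>
    intro p _ P hP
    simp at hP
    subst hP; simp
  | cons q l ih =>
    intro p h P hP
    have hpq : p.2 < q.2 := (List.pairwise_cons.1 h).1 q (by simp)
    have hq : Asc (q :: l) := (List.pairwise_cons.1 h).2
    rw [List.getLast_cons (by simp)]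
    rcases List.mem_cons.1 hP with rfl | hP
    · exact ⟨le_rfl, hpq.le.trans (ih q hq q (by simp)).2⟩
    · exact ⟨hpq.le.trans (ih q hq P hP).1, (ih q hq P hP).2⟩

end Pool.Agent.TH489.Up
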