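import Mathlib

set_option autoImplicit false

/-!
Segments between points `(0, σ)` of the `y`-axis and points `(τ, τ²)` of the parabola.
-/

namespace Pool.Agent.TH489.Up

theorem meet_upper {s t s' t' l l' : ℝ} (ht : 0 < t) (ht' : 0 < t') (hs : 0 < s)
    (hss : s ≤ s') (htt : t ≤ t') (l0 : 0 ≤ l) (l1 : l ≤ 1) (hx : l * t = l' * t')
    (hy : s + l * (t ^ 2 - s) = s' + l' * (t' ^ 2 - s')) :
    (s = s' ∧ l = 0) ∨ (t = t' ∧ l = 1) ∨ (s = s' ∧ t = t') := by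
  have hl' : l' = l * t / t' := by field_simp; linarith
  have hll : l' ≤ l := by
    rw [hl', div_le_iff₀ ht']
    nlinarith
  have e : ((1 - l') * s' - (1 - l) * s) + l * t * (t' - t) = 0 := by
    have : l' * t' ^ 2 = l * t * t' := by rw [pow_two, ← mul_assoc, ← hx]
    nlinarith
  have e1 : 0 ≤ (1 - l') * s' - (1 - l) * s := by
    have a1 : (1 - l) * s ≤ (1 - l) * s' := mul_le_mul_of_nonneg_left hss (by linarith)
    have a2 : (1 - l) * s' ≤ (1 - l') * s' := mul_le_mul_of_nonneg_right (by linarith) (by linarith)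
    linarith
  have e2 : 0 ≤ l * t * (t' - t) := mul_nonneg (mul_nonneg l0 ht.le) (by linarith)
  have e3 : l * t * (t' - t) = 0 := by linarith
  have e4 : (1 - l') * s' - (1 - l) * s = 0 := by linarith
  rcases mul_eq_zero.1 e3 with h | h
  · rcases mul_eq_zero.1 h with h | h
    · left
      have hl0 : l' = 0 := by rw [hl', h]; simp
      rw [h, hl0] at e4
      exact ⟨by linarith, h⟩
    · exact absurd h ht.ne'
  · have htt' : t = t' := by linarith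
    have hll' : l' = l := by rw [hl', htt']; field_simp
    rw [hll'] at e4
    have e5 : (1 - l) * (s' - s) = 0 := by linarith
    rcases mul_eq_zero.1 e5 with g | g
    · right; left; exact ⟨htt', by linarith⟩
    · right; right; exact ⟨by linarith, htt'⟩

theorem meet_lower {s t s' t' l l' : ℝ} (ht : 0 < t) (ht' : 0 < t') (hs' : s' ≤ - t' ^ 2)
    (hss : s' ≤ s) (htt : t ≤ t') (l0 : 0 ≤ l) (l1 : l ≤ 1) (hx : l * t = l' * t')
    (hy : s + l * (t ^ 2 - s) = s' + l' * (t' ^ 2 - s')) :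
    (s = s' ∧ l = 0) ∨ (t = t' ∧ l = 1) ∨ (s = s' ∧ t = t') := by
  have hl' : l' = l * t / t' := by field_simp; linarith
  have e : (1 - l) * (s' - s) + (l - l') * s' + l * t * (t' - t) = 0 := by
    have : l' * t' ^ 2 = l * t * t' := by rw [pow_two, ← mul_assoc, ← hx]
    nlinarith
  have e0 : (l - l') = l * (t' - t) / t' := by rw [hl']; field_simp
  have e1 : (l - l') * s' + l * t * (t' - t) ≤ - (l * (t' - t) ^ 2) := by
    have a0 : 0 ≤ l * (t' - t) / t' := div_nonneg (mul_nonneg l0 (by linarith)) ht'.le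
    have a1 : (l - l') * s' ≤ (l - l') * (- t' ^ 2) := by
      rw [e0]; exact mul_le_mul_of_nonneg_left hs' a0
    have a2 : (l - l') * (- t' ^ 2) = - (l * (t' - t) * t') := by
      rw [e0]; field_simp
    nlinarith
  have e2 : (1 - l) * (s' - s) ≤ 0 := mul_nonpos_of_nonneg_of_nonpos (by linarith) (by linarith)
  have e3 : 0 ≤ l * (t' - t) ^ 2 := mul_nonneg l0 (sq_nonneg _)
  have e4 : l * (t' - t) ^ 2 = 0 := by linarith
  have e5 : (1 - l) * (s' - s) = 0 := by linarith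
  rcases mul_eq_zero.1 e4 with h | h
  · left
    rw [h] at e5
    exact ⟨by linarith, h⟩
  · have h2 : t' - t = 0 := by simpa using h
    rcases mul_eq_zero.1 e5 with g | g
    · right; left; exact ⟨by linarith, by linarith⟩
    · right; right; exact ⟨by linarith, by linarith⟩

/-- the two edges can be compared -/
def Comp (s t s' t' : ℝ) : Prop :=
  (0 < s ∧ 0 < s' ∧ ((s ≤ s' ∧ |t| ≤ |t'|) ∨ (s' ≤ s ∧ |t'| ≤ |t|))) ∨
  (s ≤ - t ^ 2 ∧ s' ≤ - t' ^ 2 ∧ ((s' ≤ s ∧ |t| ≤ |t'|) ∨ (s ≤ s' ∧ |t'| ≤ |t|))) ∨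
  (0 < s ∧ s' ≤ - t' ^ 2) ∨ (s ≤ - t ^ 2 ∧ 0 < s')

theorem meet_mixed {s t s' t' l l' : ℝ} (ht : 0 < t) (ht' : 0 < t') (hs : 0 < s)
    (hs' : s' ≤ - t' ^ 2) (l0 : 0 ≤ l) (l1 : l ≤ 1) (l0' : 0 ≤ l') (l1' : l' ≤ 1)
    (hx : l * t = l' * t') (hy : s + l * (t ^ 2 - s) = s' + l' * (t' ^ 2 - s')) :
    t = t' ∧ l = 1 ∧ l' = 1 := by
  have a1 : s + l * (t ^ 2 - s) - (l * t) ^ 2 = (1 - l) * (s + l * t ^ 2) := by ring
  have a2 : s' + l' * (t' ^ 2 - s') - (l' * t') ^ 2 = (1 - l') * (s' + l' * t' ^ 2) := by ring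
  have a3 : (1 - l) * (s + l * t ^ 2) = (1 - l') * (s' + l' * t' ^ 2) := by
    rw [← a1, ← a2, hy, hx]
  have b1 : 0 < s + l * t ^ 2 := by positivity
  have b2 : s' + l' * t' ^ 2 ≤ 0 := by nlinarith [sq_nonneg t']
  have c1 : 0 ≤ (1 - l) * (s + l * t ^ 2) := mul_nonneg (by linarith) b1.le
  have c2 : (1 - l') * (s' + l' * t' ^ 2) ≤ 0 :=
    mul_nonpos_of_nonneg_of_nonpos (by linarith) b2
  have d1 : (1 - l) * (s + l * t ^ 2) = 0 := by linarith
  have d2 : (1 - l') * (s' + l' * t' ^ 2) = 0 := by linarith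
  have hl : l = 1 := by
    rcases mul_eq_zero.1 d1 with g | g
    · linarith
    · exact absurd g b1.ne'
  have hl' : l' = 1 := by
    rcases mul_eq_zero.1 d2 with g | g
    · linarith
    · have : 0 < t' ^ 2 := by positivity
      nlinarith
  rw [hl, hl'] at hx
  exact ⟨by linarith, hl, hl'⟩

theorem meet_pos {s t s' t' l l' : ℝ} (ht : 0 < t) (ht' : 0 < t') (hc : Comp s t s' t')
    (l0 : 0 ≤ l) (l1 : l ≤ 1) (l0' : 0 ≤ l') (l1' : l' ≤ 1)
    (hx : l * t = l' * t') (hy : s + l * (t ^ 2 - s) = s' + l' * (t' ^ 2 - s')) :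
    (s = s' ∧ l = 0) ∨ (t = t' ∧ l = 1) ∨ (s = s' ∧ t = t') := by
  have sym : ((s' = s ∧ l' = 0) ∨ (t' = t ∧ l' = 1) ∨ (s' = s ∧ t' = t)) →
      ((s = s' ∧ l = 0) ∨ (t = t' ∧ l = 1) ∨ (s = s' ∧ t = t')) := by
    rintro (⟨h1, h2⟩ | ⟨h1, h2⟩ | ⟨h1, h2⟩)
    · left
      rw [h2, zero_mul] at hx
      rcases mul_eq_zero.1 hx with g | g
      · exact ⟨h1.symm, g⟩
      · exact absurd g ht.ne'
    · right; left
      rw [h2, h1, one_mul] at hx
      refine ⟨h1.symm, ?_⟩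
      have : (l - 1) * t = 0 := by linarith
      rcases mul_eq_zero.1 this with g | g
      · linarith
      · exact absurd g ht.ne'
    · right; right; exact ⟨h1.symm, h2.symm⟩
  rcases hc with ⟨h1, h2, h3⟩ | ⟨h1, h2, h3⟩ | ⟨h1, h2⟩ | ⟨h1, h2⟩
  · rw [abs_of_pos ht, abs_of_pos ht'] at h3
    rcases h3 with ⟨g1, g2⟩ | ⟨g1, g2⟩
    · exact meet_upper ht ht' h1 g1 g2 l0 l1 hx hy
    · exact sym (meet_upper ht' ht h2 g1 g2 l0' l1' hx.symm hy.symm)
  · rw [abs_of_pos ht, abs_of_pos ht'] at h3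
    rcases h3 with ⟨g1, g2⟩ | ⟨g1, g2⟩
    · exact meet_lower ht ht' h2 g1 g2 l0 l1 hx hy
    · exact sym (meet_lower ht' ht h1 g1 g2 l0' l1' hx.symm hy.symm)
  · obtain ⟨g1, g2, -⟩ := meet_mixed ht ht' h1 h2 l0 l1 l0' l1' hx hy
    right; left; exact ⟨g1, g2⟩
  · obtain ⟨g1, -, g2⟩ := meet_mixed ht' ht h2 h1 l0' l1' l0 l1 hx.symm hy.symm
    right; left; exact ⟨g1.symm, g2⟩

theorem meet_all {s t s' t' l l' : ℝ} (ht : t ≠ 0) (ht' : t' ≠ 0)
    (hc : 0 < t * t' → Comp s t s' t')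
    (l0 : 0 ≤ l) (l1 : l ≤ 1) (l0' : 0 ≤ l') (l1' : l' ≤ 1)
    (hx : l * t = l' * t') (hy : s + l * (t ^ 2 - s) = s' + l' * (t' ^ 2 - s')) :
    (s = s' ∧ l = 0) ∨ (t = t' ∧ l = 1) ∨ (s = s' ∧ t = t') := by
  have opp : ∀ {t t' l l' : ℝ}, 0 < t → t' < 0 → 0 ≤ l → 0 ≤ l' → l * t = l' * t' →
      l = 0 ∧ l' = 0 := by
    intro t t' l l' h1 h2 h3 h4 h5
    have a1 : 0 ≤ l * t := mul_nonneg h3 h1.le
    have a2 : l' * t' ≤ 0 := mul_nonpos_of_nonneg_of_nonpos h4 h2.le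
    have a3 : l * t = 0 := by linarith
    have a4 : l' * t' = 0 := by linarith
    constructor
    · rcases mul_eq_zero.1 a3 with g | g
      · exact g
      · exact absurd g h1.ne'
    · rcases mul_eq_zero.1 a4 with g | g
      · exact g
      · exact absurd g h2.ne
  rcases lt_or_gt_of_ne ht with h | h <;> rcases lt_or_gt_of_ne ht' with h' | h'
  · have hcc := hc (mul_pos_of_neg_of_neg h h')
    have hc' : Comp s (-t) s' (-t') := by
      unfold Comp at hcc ⊢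
      rwa [abs_neg, abs_neg, neg_sq, neg_sq]
    have := meet_pos (by linarith) (by linarith) hc' l0 l1 l0' l1' (by linarith)
      (by rw [neg_sq, neg_sq]; exact hy)
    rcases this with g | ⟨g1, g2⟩ | ⟨g1, g2⟩
    · exact Or.inl g
    · exact Or.inr (Or.inl ⟨by linarith, g2⟩)
    · exact Or.inr (Or.inr ⟨g1, by linarith⟩)
  · obtain ⟨g1, g2⟩ := opp h' h l0' l0 hx.symm
    left
    rw [g1, g2] at hy
    exact ⟨by linarith, g2⟩
  · obtain ⟨g1, g2⟩ := opp h h' l0 l0' hx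
    left
    rw [g1, g2] at hy
    exact ⟨by linarith, g1⟩
  · exact meet_pos h h' (hc (mul_pos h h')) l0 l1 l0' l1' hx hy

/-- common points of two such segments -/
theorem meet_seg {s t s' t' : ℝ} (ht : t ≠ 0) (ht' : t' ≠ 0)
    (hc : 0 < t * t' → Comp s t s' t') {z : ℝ × ℝ}
    (hz : z ∈ segment ℝ ((0 : ℝ), s) (t, t ^ 2)) (hz' : z ∈ segment ℝ ((0 : ℝ), s') (t', t' ^ 2)) :
    (s = s' ∧ z = (0, s)) ∨ (t = t' ∧ z = (t, t ^ 2)) ∨ (s = s' ∧ t = t') := by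
  rw [segment_eq_image] at hz hz'
  obtain ⟨l, ⟨l0, l1⟩, rfl⟩ := hz
  obtain ⟨l', ⟨l0', l1'⟩, he⟩ := hz'
  have hx := congrArg Prod.fst he
  have hy := congrArg Prod.snd he
  simp at hx hy
  have hy' : s + l * (t ^ 2 - s) = s' + l' * (t' ^ 2 - s') := by linarith
  rcases meet_all ht ht' hc l0 l1 l0' l1' hx.symm hy' with ⟨g1, g2⟩ | ⟨g1, g2⟩ | g
  · left; refine ⟨g1, ?_⟩; rw [g2]; simp
  · right; left; refine ⟨g1, ?_⟩; rw [g2]; simp
  · right; right; exact g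

end Pool.Agent.TH489.Up
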