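import Pool.Agent.TH489.Up.Ext

set_option autoImplicit false

/-!
The graph on `0, …, n-1` with `u ∼ v` iff `|u - v| ∈ {1, 3}`, all edges directed from even to odd
numbers: in every system of curves many of the 4-cycles `4j, 4j+1, 4j+2, 4j+3` are nested.
-/

namespace Pool.Agent.TH489.Up

/-- `S` contains the edges of the graph with differences `1` and `3` on `0, …, n-1` -/
def HasE (S : Sys ℕ) (n : ℕ) : Prop :=
  ∀ u v, u < n → v < n → u % 2 = 0 → v % 2 = 1 →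
    (v = u + 1 ∨ u = v + 1 ∨ v = u + 3 ∨ u = v + 3) → S.E u v

noncomputable def inC (S : Sys ℕ) (j v : ℕ) : ZMod 2 :=
  S.inn (4 * j) (4 * j + 1) (4 * j + 2) (4 * j + 3) v

section

variable {S : Sys ℕ} {n : ℕ} (hS : HasE S n)

include hS

theorem e01 {j : ℕ} (h : 4 * j + 3 < n) : S.E (4 * j) (4 * j + 1) :=
  hS _ _ (by omega) (by omega) (by omega) (by omega) (by omega)

theorem e03 {j : ℕ} (h : 4 * j + 3 < n) : S.E (4 * j) (4 * j + 3) :=
  hS _ _ (by omega) (by omega) (by omega) (by omega) (by omega)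

theorem e21 {j : ℕ} (h : 4 * j + 3 < n) : S.E (4 * j + 2) (4 * j + 1) :=
  hS _ _ (by omega) (by omega) (by omega) (by omega) (by omega)

theorem e23 {j : ℕ} (h : 4 * j + 3 < n) : S.E (4 * j + 2) (4 * j + 3) :=
  hS _ _ (by omega) (by omega) (by omega) (by omega) (by omega)

theorem inC_step {j v : ℕ} (hj : 4 * j + 3 < n) (hv : v + 1 < n)
    (h : v + 1 < 4 * j ∨ 4 * j + 3 < v) : inC S j v = inC S j (v + 1) := by
  unfold inC
  rcases Nat.mod_two_eq_zero_or_one v with hp | hp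
  · have he : S.E v (v + 1) := hS _ _ (by omega) (by omega) (by omega) (by omega) (by omega)
    exact S.inn_edge (e01 hS hj) (e03 hS hj) (e21 hS hj) (e23 hS hj) he (by omega) (by omega)
      (by omega) (by omega)
  · have he : S.E (v + 1) v := hS _ _ (by omega) (by omega) (by omega) (by omega) (by omega)
    exact (S.inn_edge (e01 hS hj) (e03 hS hj) (e21 hS hj) (e23 hS hj) he (by omega) (by omega)
      (by omega) (by omega)).symm

theorem inC_low {j : ℕ} (hj : 4 * j + 3 < n) (k : ℕ) : ∀ v, v + k + 1 = 4 * j →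
    inC S j v = inC S j (4 * j - 1) := by
  induction k with
  | zero => intro v hv; congr 1; omega
  | succ k ih =>
    intro v hv
    rw [inC_step hS hj (by omega) (by omega)]
    exact ih (v + 1) (by omega)

theorem inC_high {j : ℕ} (hj : 4 * j + 3 < n) (k : ℕ) (hk : 4 * j + 4 + k < n) :
    inC S j (4 * j + 4 + k) = inC S j (4 * j + 4) := by
  induction k with
  | zero => rfl
  | succ k ih =>
    rw [← ih (by omega)]
    have h3 : 4 * j + 3 < 4 * j + 4 + k := by omega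
    exact (inC_step hS hj (by omega) (Or.inr h3)).symm

theorem inC_sum {j : ℕ} (h0 : 0 < j) (hj : 4 * j + 4 < n) :
    inC S j (4 * j + 4) + inC S j (4 * j - 1) = 1 := by
  have hj' : 4 * j + 3 < n := by omega
  have hp1 : S.E (4 * j) (4 * j - 1) :=
    hS _ _ (by omega) (by omega) (by omega) (by omega) (by omega)
  have hp2 : S.E (4 * j + 2) (4 * j - 1) :=
    hS _ _ (by omega) (by omega) (by omega) (by omega) (by omega)
  have hq1 : S.E (4 * j + 4) (4 * j + 1) :=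
    hS _ _ (by omega) (by omega) (by omega) (by omega) (by omega)
  have hq2 : S.E (4 * j + 4) (4 * j + 3) :=
    hS _ _ (by omega) (by omega) (by omega) (by omega) (by omega)
  exact S.separate (e01 hS hj') (e03 hS hj') hp1 (e21 hS hj') (e23 hS hj') hp2 hq1 hq2
    (by omega) (by omega) (by omega) (by omega) (by omega) (by omega)

end

/-- the cycle `i` lies inside the cycle `j` -/
def Ins (S : Sys ℕ) (i j : ℕ) : Prop := ∀ v, 4 * i ≤ v → v ≤ 4 * i + 3 → inC S j v = 1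

theorem ins_low {S : Sys ℕ} {n : ℕ} (hS : HasE S n) {i j : ℕ} (hj : 4 * j + 3 < n)
    (h1 : inC S j (4 * j - 1) = 1) (hij : i < j) : Ins S i j := by
  intro v h2 h3
  rw [← h1]
  exact inC_low hS hj (4 * j - 1 - v) v (by omega)

theorem ins_high {S : Sys ℕ} {n : ℕ} (hS : HasE S n) {i j : ℕ} (hi : 4 * i + 3 < n)
    (h0 : 0 < j) (h1 : inC S j (4 * j - 1) ≠ 1) (hij : j < i) : Ins S i j := by
  have h2 := inC_sum hS h0 (by omega : 4 * j + 4 < n)
  have h3 : inC S j (4 * j + 4) = 1 := by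
    generalize inC S j (4 * j - 1) = A at h1 h2
    generalize inC S j (4 * j + 4) = B at h2 ⊢
    revert A B
    decide
  intro v h4 h5
  rw [← h3]
  have := inC_high hS (j := j) (by omega) (v - (4 * j + 4)) (by omega)
  rwa [show 4 * j + 4 + (v - (4 * j + 4)) = v by omega] at this

/-- grid points on the curves which bound them on both sides -/
structure Grid (S : Sys ℕ) where
  K : ℕ → ℕ → Set (ℤ × ℤ)
  on : ∀ p q, S.E p q → ∀ P ∈ K p q, S.Y p ≤ P.2 ∧ (P.2 : ℝ) ≤ S.Y q ∧ S.F p q P.2 = P.1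
  lo : ∀ p q, S.E p q → ∀ t, S.Y p ≤ t → t ≤ S.Y q → ∃ P ∈ K p q, (P.1 : ℝ) ≤ S.F p q t
  hi : ∀ p q, S.E p q → ∀ t, S.Y p ≤ t → t ≤ S.Y q → ∃ P ∈ K p q, S.F p q t ≤ (P.1 : ℝ)
  src : ∀ p q, S.E p q → ∃ P ∈ K p q, (P.2 : ℝ) = S.Y p
  snk : ∀ p q, S.E p q → ∃ P ∈ K p q, (P.2 : ℝ) = S.Y q

/-- the grid points on the cycle `j` -/
def GP {S : Sys ℕ} (T : Grid S) (j : ℕ) : Set (ℤ × ℤ) :=
  {P | ∃ p q, (p = 4 * j ∨ p = 4 * j + 2) ∧ (q = 4 * j + 1 ∨ q = 4 * j + 3) ∧ P ∈ T.K p q}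

theorem cyc_E {S : Sys ℕ} {n : ℕ} (hS : HasE S n) {j p q : ℕ} (hj : 4 * j + 3 < n)
    (hp : p = 4 * j ∨ p = 4 * j + 2) (hq : q = 4 * j + 1 ∨ q = 4 * j + 3) : S.E p q := by
  rcases hp with rfl | rfl <;> rcases hq with rfl | rfl
  · exact e01 hS hj
  · exact e03 hS hj
  · exact e21 hS hj
  · exact e23 hS hj

theorem step {S : Sys ℕ} {n : ℕ} (hS : HasE S n) (T : Grid S) {i j : ℕ} (hi : 4 * i + 3 < n)
    (hj : 4 * j + 3 < n) (hne : i ≠ j) (h : Ins S i j) {P : ℤ × ℤ} (hP : P ∈ GP T i) :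
    (∃ Q ∈ GP T j, Q.1 < P.1) ∧ (∃ Q ∈ GP T j, P.1 < Q.1) ∧
      (∃ Q ∈ GP T j, Q.2 < P.2) ∧ (∃ Q ∈ GP T j, P.2 < Q.2) := by
  obtain ⟨p, q, hp, hq, hPK⟩ := hP
  have hE : S.E p q := cyc_E hS hi hp hq
  obtain ⟨y1, y2, y3⟩ := T.on p q hE P hPK
  have lE := S.lt _ _ hE
  have hpar : S.par (4 * j) (4 * j + 1) (4 * j + 2) (4 * j + 3) (P.1 : ℝ) (P.2 : ℝ) = 1 := by
    have h1 : inC S j p = 1 := h p (by omega) (by omega)
    unfold inC Sys.inn at h1
    rw [← S.bot _ _ hE] at h1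
    rw [← y3, ← h1]
    exact S.par_inv (e01 hS hj) (e03 hS hj) (e21 hS hj) (e23 hS hj) hE (by omega) (by omega)
      (by omega) (by omega) y1 y2 le_rfl lE.le
  have c1 := e01 hS hj
  have c2 := e03 hS hj
  have c3 := e21 hS hj
  have c4 := e23 hS hj
  refine ⟨?_, ?_, ?_, ?_⟩
  · obtain ⟨a, b, ha, hb, hab, r1, r2, r3⟩ := S.left_of_par c1 c2 c3 c4 hpar
    obtain ⟨Q, hQ, hQ2⟩ := T.lo a b hab _ r1 r2
    refine ⟨Q, ⟨a, b, ha, hb, hQ⟩, ?_⟩
    have : (Q.1 : ℝ) < P.1 := lt_of_le_of_lt hQ2 r3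
    exact_mod_cast this
  · obtain ⟨a, b, ha, hb, hab, r1, r2, r3⟩ := S.right_of_par c1 c2 c3 c4 hpar
    obtain ⟨Q, hQ, hQ2⟩ := T.hi a b hab _ r1 r2
    refine ⟨Q, ⟨a, b, ha, hb, hQ⟩, ?_⟩
    have hne' := S.ne p q a b hE hab (by omega) (by omega) P.2 y1 y2 r1 r2
    rw [y3] at hne'
    have h3 : (P.1 : ℝ) < S.F a b P.2 := lt_of_le_of_ne r3 hne'
    have : (P.1 : ℝ) < Q.1 := lt_of_lt_of_le h3 hQ2
    exact_mod_cast this
  · rcases S.below_of_par c1 c2 c3 c4 hpar with g | g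
    · obtain ⟨Q, hQ, hQ2⟩ := T.src _ _ c1
      refine ⟨Q, ⟨_, _, Or.inl rfl, Or.inl rfl, hQ⟩, ?_⟩
      rw [← hQ2] at g
      exact_mod_cast g
    · obtain ⟨Q, hQ, hQ2⟩ := T.src _ _ c3
      refine ⟨Q, ⟨_, _, Or.inr rfl, Or.inl rfl, hQ⟩, ?_⟩
      rw [← hQ2] at g
      exact_mod_cast g
  · rcases S.above_of_par c1 c2 c3 c4 hpar with g | g
    · obtain ⟨Q, hQ, hQ2⟩ := T.snk _ _ c1
      refine ⟨Q, ⟨_, _, Or.inl rfl, Or.inl rfl, hQ⟩, ?_⟩
      rw [← hQ2] at g
      exact_mod_cast g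
    · obtain ⟨Q, hQ, hQ2⟩ := T.snk _ _ c2
      refine ⟨Q, ⟨_, _, Or.inl rfl, Or.inr rfl, hQ⟩, ?_⟩
      rw [← hQ2] at g
      exact_mod_cast g

/-- the cycle `j` has width and height at least `2 k` -/
def Wide {S : Sys ℕ} (T : Grid S) (j : ℕ) (k : ℕ) : Prop :=
  (∃ P ∈ GP T j, ∃ Q ∈ GP T j, 2 * (k : ℤ) ≤ Q.1 - P.1) ∧
    (∃ P ∈ GP T j, ∃ Q ∈ GP T j, 2 * (k : ℤ) ≤ Q.2 - P.2)

theorem wide_zero {S : Sys ℕ} {n : ℕ} (hS : HasE S n) (T : Grid S) {j : ℕ}
    (hj : 4 * j + 3 < n) : Wide T j 0 := by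
  obtain ⟨P, hP, -⟩ := T.src _ _ (e01 hS hj)
  have hG : P ∈ GP T j := ⟨_, _, Or.inl rfl, Or.inl rfl, hP⟩
  exact ⟨⟨P, hG, P, hG, by simp⟩, ⟨P, hG, P, hG, by simp⟩⟩

theorem wide_succ {S : Sys ℕ} {n : ℕ} (hS : HasE S n) (T : Grid S) {i j k : ℕ}
    (hi : 4 * i + 3 < n) (hj : 4 * j + 3 < n) (hne : i ≠ j) (h : Ins S i j) (hw : Wide T i k) :
    Wide T j (k + 1) := by
  obtain ⟨⟨P, hP, Q, hQ, hPQ⟩, ⟨P', hP', Q', hQ', hPQ'⟩⟩ := hw
  obtain ⟨⟨A, hA, hA2⟩, -, -, -⟩ := step hS T hi hj hne h hP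
  obtain ⟨-, ⟨B, hB, hB2⟩, -, -⟩ := step hS T hi hj hne h hQ
  obtain ⟨-, -, ⟨A', hA', hA2'⟩, -⟩ := step hS T hi hj hne h hP'
  obtain ⟨-, -, -, ⟨B', hB', hB2'⟩⟩ := step hS T hi hj hne h hQ'
  refine ⟨⟨A, hA, B, hB, ?_⟩, ⟨A', hA', B', hB', ?_⟩⟩
  · push_cast; omega
  · push_cast; omega

theorem wide_up {S : Sys ℕ} {n : ℕ} (hS : HasE S n) (T : Grid S) (A : Finset ℕ) :
    (∀ i ∈ A, 4 * i + 3 < n) → (∀ i ∈ A, ∀ j ∈ A, i < j → Ins S i j) → A.Nonempty →
    ∃ j ∈ A, (∀ i ∈ A, i ≤ j) ∧ Wide T j (A.card - 1) := by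
  induction A using Finset.induction_on_max with
  | empty => intro _ _ h; exact absurd h (by simp)
  | insert a s hs ih =>
    intro h1 h2 _
    have ha : a ∉ s := fun h => lt_irrefl _ (hs a h)
    have hcard : (insert a s).card = s.card + 1 := Finset.card_insert_of_notMem ha
    have hmem : a ∈ insert a s := Finset.mem_insert_self _ _
    rcases s.eq_empty_or_nonempty with he | hne
    · subst he
      refine ⟨a, hmem, ?_, ?_⟩
      · intro i hi
        simp at hi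
        exact hi.le
      · simpa using wide_zero hS T (h1 a hmem)
    · obtain ⟨j, hj, hj2, hw⟩ := ih (fun i hi => h1 i (Finset.mem_insert_of_mem hi))
        (fun i hi j hj hij => h2 i (Finset.mem_insert_of_mem hi) j
          (Finset.mem_insert_of_mem hj) hij) hne
      refine ⟨a, hmem, ?_, ?_⟩
      · intro i hi
        rcases Finset.mem_insert.1 hi with rfl | hi
        · exact le_rfl
        · exact (hs i hi).le
      · have hpos : 0 < s.card := Finset.card_pos.2 hne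
        have := wide_succ hS T (h1 j (Finset.mem_insert_of_mem hj)) (h1 a hmem)
          (hs j hj).ne (h2 j (Finset.mem_insert_of_mem hj) a hmem (hs j hj)) hw
        rw [hcard]
        rwa [show s.card - 1 + 1 = s.card + 1 - 1 by omega] at this

theorem wide_down {S : Sys ℕ} {n : ℕ} (hS : HasE S n) (T : Grid S) (A : Finset ℕ) :
    (∀ i ∈ A, 4 * i + 3 < n) → (∀ i ∈ A, ∀ j ∈ A, j < i → Ins S i j) → A.Nonempty →
    ∃ j ∈ A, (∀ i ∈ A, j ≤ i) ∧ Wide T j (A.card - 1) := by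
  induction A using Finset.induction_on_min with
  | empty => intro _ _ h; exact absurd h (by simp)
  | insert a s hs ih =>
    intro h1 h2 _
    have ha : a ∉ s := fun h => lt_irrefl _ (hs a h)
    have hcard : (insert a s).card = s.card + 1 := Finset.card_insert_of_notMem ha
    have hmem : a ∈ insert a s := Finset.mem_insert_self _ _
    rcases s.eq_empty_or_nonempty with he | hne
    · subst he
      refine ⟨a, hmem, ?_, ?_⟩
      · intro i hi
        simp at hi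
        exact hi.ge
      · simpa using wide_zero hS T (h1 a hmem)
    · obtain ⟨j, hj, hj2, hw⟩ := ih (fun i hi => h1 i (Finset.mem_insert_of_mem hi))
        (fun i hi j hj hij => h2 i (Finset.mem_insert_of_mem hi) j
          (Finset.mem_insert_of_mem hj) hij) hne
      refine ⟨a, hmem, ?_, ?_⟩
      · intro i hi
        rcases Finset.mem_insert.1 hi with rfl | hi
        · exact le_rfl
        · exact (hs i hi).le
      · have hpos : 0 < s.card := Finset.card_pos.2 hne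
        have := wide_succ hS T (h1 j (Finset.mem_insert_of_mem hj)) (h1 a hmem)
          (hs j hj).ne' (h2 j (Finset.mem_insert_of_mem hj) a hmem (hs j hj)) hw
        rw [hcard]
        rwa [show s.card - 1 + 1 = s.card + 1 - 1 by omega] at this

/-- **Main combinatorial statement.**  If `4 M + 4 < n`, some cycle has width and height at least
`2 k` with `2 (k + 1) ≥ M`. -/
theorem exists_wide {S : Sys ℕ} {n : ℕ} (hS : HasE S n) (T : Grid S) {M : ℕ} (hM : 0 < M)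
    (hn : 4 * M + 4 < n) : ∃ j k, 4 * j + 3 < n ∧ M ≤ 2 * (k + 1) ∧ Wide T j k := by
  classical
  set I := Finset.Icc 1 M with hI
  set A := I.filter (fun j => inC S j (4 * j - 1) = 1) with hA
  set B := I.filter (fun j => ¬ inC S j (4 * j - 1) = 1) with hB
  have hcard : A.card + B.card = M := by
    rw [hA, hB, Finset.card_filter_add_card_filter_not, hI]
    simp
  have hAI : ∀ i ∈ A, 0 < i ∧ 4 * i + 3 < n := by
    intro i hi
    have := (Finset.mem_filter.1 hi).1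
    rw [hI, Finset.mem_Icc] at this
    omega
  have hBI : ∀ i ∈ B, 0 < i ∧ 4 * i + 3 < n := by
    intro i hi
    have := (Finset.mem_filter.1 hi).1
    rw [hI, Finset.mem_Icc] at this
    omega
  rcases le_total B.card A.card with h | h
  · have hne : A.Nonempty := Finset.card_pos.1 (by omega)
    obtain ⟨j, hj, -, hw⟩ := wide_up hS T A (fun i hi => (hAI i hi).2)
      (fun i hi j hj hij => ins_low hS (hAI j hj).2 (Finset.mem_filter.1 hj).2 hij) hne
    exact ⟨j, A.card - 1, (hAI j hj).2, by omega, hw⟩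
  · have hne : B.Nonempty := Finset.card_pos.1 (by omega)
    obtain ⟨j, hj, -, hw⟩ := wide_down hS T B (fun i hi => (hBI i hi).2)
      (fun i hi j hj hij => ins_high hS (hBI i hi).2 (hBI j hj).1 (Finset.mem_filter.1 hj).2 hij)
      hne
    exact ⟨j, B.card - 1, (hBI j hj).2, by omega, hw⟩

end Pool.Agent.TH489.Up
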