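import Mathlib

set_option autoImplicit false

/-!
Systems of `y`-monotone curves whose vertices are sources or sinks, the parity of the number of
curves of a 4-cycle to the left of a point, and the lemma that in every such system the two
further vertices of `K₃,₃` minus an edge lie on different sides of the 4-cycle.
-/

namespace Pool.Agent.TH489.Up

structure Sys (V : Type) where
  X : V → ℝ
  Y : V → ℝ
  E : V → V → Prop
  F : V → V → ℝ → ℝ
  lt : ∀ u v, E u v → Y u < Y v
  bot : ∀ u v, E u v → F u v (Y u) = X u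
  top : ∀ u v, E u v → F u v (Y v) = X v
  cont : ∀ u v, E u v → Continuous (F u v)
  ne : ∀ u v u' v', E u v → E u' v' → u ≠ u' → v ≠ v' →
    ∀ y, Y u ≤ y → y ≤ Y v → Y u' ≤ y → y ≤ Y v' → F u v y ≠ F u' v' y

namespace Sys

variable {V : Type} (S : Sys V)

open Classical in
noncomputable def cnt (u v : V) (a t : ℝ) : ZMod 2 :=
  if S.Y u ≤ t ∧ t ≤ S.Y v ∧ S.F u v t < a then 1 else 0

/-- parity of the number of edges of the cycle `x y z w` (sources `x, z`, sinks `y, w`) to the left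
of the point `(a, t)` -/
noncomputable def par (x y z w : V) (a t : ℝ) : ZMod 2 :=
  S.cnt x y a t + S.cnt x w a t + (S.cnt z y a t + S.cnt z w a t)

theorem ord {u v u' v' : V} (h : S.E u v) (h' : S.E u' v') (hu : u ≠ u') (hv : v ≠ v')
    {s t : ℝ} (s1 : S.Y u ≤ s) (s2 : s ≤ S.Y v) (s3 : S.Y u' ≤ s) (s4 : s ≤ S.Y v')
    (t1 : S.Y u ≤ t) (t2 : t ≤ S.Y v) (t3 : S.Y u' ≤ t) (t4 : t ≤ S.Y v')
    (hlt : S.F u v s < S.F u' v' s) : S.F u v t < S.F u' v' t := by
  by_contra hc
  push Not at hc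
  have hcont : ContinuousOn (fun r => S.F u' v' r - S.F u v r) (Set.uIcc s t) :=
    ((S.cont _ _ h').sub (S.cont _ _ h)).continuousOn
  have hiv := intermediate_value_uIcc hcont
  have h0 : (0 : ℝ) ∈ Set.uIcc (S.F u' v' s - S.F u v s) (S.F u' v' t - S.F u v t) := by
    rw [Set.mem_uIcc]; right; constructor <;> linarith
  obtain ⟨r, hr, hr0⟩ := hiv h0
  have hr0' : S.F u' v' r - S.F u v r = 0 := hr0
  rw [Set.mem_uIcc] at hr
  have e1 : S.Y u ≤ r := by rcases hr with ⟨a, b⟩ | ⟨a, b⟩ <;> linarith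
  have e2 : r ≤ S.Y v := by rcases hr with ⟨a, b⟩ | ⟨a, b⟩ <;> linarith
  have e3 : S.Y u' ≤ r := by rcases hr with ⟨a, b⟩ | ⟨a, b⟩ <;> linarith
  have e4 : r ≤ S.Y v' := by rcases hr with ⟨a, b⟩ | ⟨a, b⟩ <;> linarith
  exact S.ne u v u' v' h h' hu hv r e1 e2 e3 e4 (by linarith)

open Classical in
/-- `1` if the edge `p q` is to the left of the edge `u v` on their common range -/
noncomputable def sg (u v p q : V) : ZMod 2 :=
  if ∃ r, S.Y u ≤ r ∧ r ≤ S.Y v ∧ S.Y p ≤ r ∧ r ≤ S.Y q ∧ S.F p q r < S.F u v r then 1 else 0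

open Classical in
theorem sg_eq {u v p q : V} (h : S.E u v) (h' : S.E p q) (hu : p ≠ u) (hv : q ≠ v) {t : ℝ}
    (t1 : S.Y u ≤ t) (t2 : t ≤ S.Y v) (t3 : S.Y p ≤ t) (t4 : t ≤ S.Y q) :
    S.sg u v p q = if S.F p q t < S.F u v t then 1 else 0 := by
  unfold sg
  congr 1
  apply propext
  constructor
  · rintro ⟨r, r1, r2, r3, r4, r5⟩
    exact S.ord h' h hu hv r3 r4 r1 r2 t3 t4 t1 t2 r5
  · intro hh
    exact ⟨t, t1, t2, t3, t4, hh⟩

open Classical in
theorem cnt_eq {u v p q : V} (h : S.E u v) (h' : S.E p q) (hu : p ≠ u) (hv : q ≠ v) {t : ℝ}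
    (t1 : S.Y u ≤ t) (t2 : t ≤ S.Y v) :
    S.cnt p q (S.F u v t) t =
      (if S.Y p ≤ t then S.sg u v p q else 0) + (if S.Y q < t then S.sg u v p q else 0) := by
  have hpq := S.lt _ _ h'
  have h2 : S.sg u v p q + S.sg u v p q = 0 := CharTwo.add_self_eq_zero _
  unfold cnt
  by_cases c1 : S.Y p ≤ t
  · by_cases c2 : t ≤ S.Y q
    · rw [S.sg_eq h h' hu hv t1 t2 c1 c2]
      have c3 : ¬ S.Y q < t := not_lt.2 c2
      simp only [c1, c2, c3, true_and, if_true, if_false, add_zero]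
    · have c3 : S.Y q < t := not_le.1 c2
      simp only [c1, c2, c3, if_true, h2, false_and, and_false, if_false]
  · have c3 : ¬ S.Y q < t := by
      intro hh; exact c1 (by linarith)
    simp only [c1, c3, false_and, if_false, add_zero]

open Classical in
theorem src_part {u v p q q' : V} (h : S.E u v) (h1 : S.E p q) (h2 : S.E p q') (hu : p ≠ u)
    (hv : q ≠ v) (hv' : q' ≠ v) {t : ℝ} (t1 : S.Y u ≤ t) (t2 : t ≤ S.Y v) :
    (if S.Y p ≤ t then S.sg u v p q else 0) + (if S.Y p ≤ t then S.sg u v p q' else 0) =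
      if S.Y p ≤ S.Y u then S.sg u v p q + S.sg u v p q' else 0 := by
  have l1 := S.lt _ _ h1
  have l2 := S.lt _ _ h2
  by_cases c1 : S.Y p ≤ S.Y u
  · have c2 : S.Y p ≤ t := by linarith
    simp only [c1, c2, if_true]
  · by_cases c2 : S.Y p ≤ t
    · have c3 : S.Y u ≤ S.Y p := by linarith
      rw [S.sg_eq h h1 hu hv c3 (by linarith) le_rfl l1.le,
        S.sg_eq h h2 hu hv' c3 (by linarith) le_rfl l2.le, S.bot _ _ h1, S.bot _ _ h2]
      simp only [c1, c2, if_true, if_false]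
      exact CharTwo.add_self_eq_zero _
    · simp only [c1, c2, if_false, add_zero]

open Classical in
theorem snk_part {u v p p' q : V} (h : S.E u v) (h1 : S.E p q) (h2 : S.E p' q) (hu : p ≠ u)
    (hu' : p' ≠ u) (hv : q ≠ v) {t : ℝ} (t1 : S.Y u ≤ t) (t2 : t ≤ S.Y v) :
    (if S.Y q < t then S.sg u v p q else 0) + (if S.Y q < t then S.sg u v p' q else 0) =
      if S.Y q < S.Y u then S.sg u v p q + S.sg u v p' q else 0 := by
  have l1 := S.lt _ _ h1
  have l2 := S.lt _ _ h2
  by_cases c1 : S.Y q < S.Y u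
  · have c2 : S.Y q < t := by linarith
    simp only [c1, c2, if_true]
  · by_cases c2 : S.Y q < t
    · have c3 : S.Y u ≤ S.Y q := by linarith
      rw [S.sg_eq h h1 hu hv c3 (by linarith) l1.le le_rfl,
        S.sg_eq h h2 hu' hv c3 (by linarith) l2.le le_rfl, S.top _ _ h1, S.top _ _ h2]
      simp only [c1, c2, if_true, if_false]
      exact CharTwo.add_self_eq_zero _
    · simp only [c1, c2, if_false, add_zero]

/-- the parity does not change along an edge that is disjoint from the cycle -/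
theorem par_inv {x y z w u v : V} (hxy : S.E x y) (hxw : S.E x w) (hzy : S.E z y) (hzw : S.E z w)
    (h : S.E u v) (ux : x ≠ u) (uz : z ≠ u) (vy : y ≠ v) (vw : w ≠ v) {t t' : ℝ}
    (t1 : S.Y u ≤ t) (t2 : t ≤ S.Y v) (t1' : S.Y u ≤ t') (t2' : t' ≤ S.Y v) :
    S.par x y z w (S.F u v t) t = S.par x y z w (S.F u v t') t' := by
  have key : ∀ r, S.Y u ≤ r → r ≤ S.Y v → S.par x y z w (S.F u v r) r =
      ((if S.Y x ≤ S.Y u then S.sg u v x y + S.sg u v x w else 0) +
       (if S.Y z ≤ S.Y u then S.sg u v z y + S.sg u v z w else 0)) +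
      ((if S.Y y < S.Y u then S.sg u v x y + S.sg u v z y else 0) +
       (if S.Y w < S.Y u then S.sg u v x w + S.sg u v z w else 0)) := by
    intro r r1 r2
    rw [← S.src_part h hxy hxw ux vy vw r1 r2, ← S.src_part h hzy hzw uz vy vw r1 r2,
      ← S.snk_part h hxy hzy ux uz vy r1 r2, ← S.snk_part h hxw hzw ux uz vw r1 r2]
    unfold par
    rw [S.cnt_eq h hxy ux vy r1 r2, S.cnt_eq h hxw ux vw r1 r2, S.cnt_eq h hzy uz vy r1 r2,
      S.cnt_eq h hzw uz vw r1 r2]
    ring
  rw [key t t1 t2, key t' t1' t2']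

/-- parity at a vertex -/
noncomputable def inn (x y z w p : V) : ZMod 2 := S.par x y z w (S.X p) (S.Y p)

theorem inn_edge {x y z w u v : V} (hxy : S.E x y) (hxw : S.E x w) (hzy : S.E z y)
    (hzw : S.E z w) (h : S.E u v) (ux : x ≠ u) (uz : z ≠ u) (vy : y ≠ v) (vw : w ≠ v) :
    S.inn x y z w u = S.inn x y z w v := by
  unfold inn
  have l := S.lt _ _ h
  rw [← S.bot _ _ h, ← S.top _ _ h]
  exact S.par_inv hxy hxw hzy hzw h ux uz vy vw le_rfl l.le l.le le_rfl

theorem par_swap (x y z w : V) (a t : ℝ) : S.par x y z w a t = S.par z y x w a t := by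
  unfold par; ring

theorem par_swap' (x y z w : V) (a t : ℝ) : S.par x y z w a t = S.par x w z y a t := by
  unfold par; ring

open Classical in
/-- contribution of a pair of tents -/
theorem pair_contrib {x z i j : V} (hxi : S.E x i) (hxj : S.E x j) (hzi : S.E z i)
    (hzj : S.E z j) (hxz : x ≠ z) (hij : i ≠ j) (hY : S.Y x ≤ S.Y z) (hle : S.Y i ≤ S.Y j) :
    S.cnt x j (S.X i) (S.Y i) + S.cnt z j (S.X i) (S.Y i) =
      (if S.F x j (S.Y z) < S.X z then 1 else 0) + (if S.F x i (S.Y z) < S.X z then 1 else 0) +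
        1 := by
  have l1 := S.lt _ _ hzi
  have l2 := S.lt _ _ hzj
  have e1 : S.cnt x j (S.X i) (S.Y i) = if S.F x j (S.Y z) < S.X z then 1 else 0 := by
    unfold cnt
    congr 1
    apply propext
    rw [← S.top _ _ hzi, ← S.bot _ _ hzi]
    constructor
    · rintro ⟨-, -, h3⟩
      exact S.ord hxj hzi hxz hij.symm (by linarith) hle l1.le le_rfl hY l2.le le_rfl l1.le h3
    · intro h3
      exact ⟨by linarith, hle,
        S.ord hxj hzi hxz hij.symm hY l2.le le_rfl l1.le (by linarith) hle l1.le le_rfl h3⟩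
  have e2 : S.cnt z j (S.X i) (S.Y i) = if S.X z < S.F x i (S.Y z) then 1 else 0 := by
    unfold cnt
    congr 1
    apply propext
    have e3 : S.X z = S.F z j (S.Y z) := (S.bot _ _ hzj).symm
    rw [← S.top _ _ hxi, e3]
    constructor
    · rintro ⟨-, -, h3⟩
      exact S.ord hzj hxi hxz.symm hij.symm l1.le hle (by linarith) le_rfl le_rfl l2.le hY l1.le h3
    · intro h3
      exact ⟨l1.le, hle,
        S.ord hzj hxi hxz.symm hij.symm le_rfl l2.le hY l1.le l1.le hle (by linarith) le_rfl h3⟩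
  have hne : S.F x i (S.Y z) ≠ S.X z := by
    have := S.ne x i z j hxi hzj hxz hij (S.Y z) hY l1.le le_rfl l2.le
    rwa [S.bot _ _ hzj] at this
  rw [e1, e2]
  by_cases c : S.F x i (S.Y z) < S.X z
  · have c' : ¬ S.X z < S.F x i (S.Y z) := not_lt.2 c.le
    simp only [c, c', if_true, if_false, add_zero]
    rw [add_assoc]
    have : (1 : ZMod 2) + 1 = 0 := by decide
    rw [this, add_zero]
  · have c' : S.X z < S.F x i (S.Y z) := lt_of_le_of_ne (not_lt.1 c) (Ne.symm hne)
    simp only [c, c', if_true, if_false, add_zero]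

theorem cnt_above {x i : V} {a t : ℝ} (h : S.Y i < t) : S.cnt x i a t = 0 := by
  unfold cnt
  rw [if_neg]
  rintro ⟨-, h2, -⟩
  linarith

open Classical in
theorem pair_sum {x z i j : V} (hxi : S.E x i) (hxj : S.E x j) (hzi : S.E z i)
    (hzj : S.E z j) (hxz : x ≠ z) (hij : i ≠ j) (hY : S.Y x ≤ S.Y z) :
    (S.cnt x j (S.X i) (S.Y i) + S.cnt z j (S.X i) (S.Y i)) +
      (S.cnt x i (S.X j) (S.Y j) + S.cnt z i (S.X j) (S.Y j)) =
      (if S.F x j (S.Y z) < S.X z then 1 else 0) + (if S.F x i (S.Y z) < S.X z then 1 else 0) +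
        1 := by
  rcases lt_trichotomy (S.Y i) (S.Y j) with h | h | h
  · rw [S.pair_contrib hxi hxj hzi hzj hxz hij hY h.le, S.cnt_above h, S.cnt_above h]
    ring
  · have e1 := S.pair_contrib hxi hxj hzi hzj hxz hij hY h.le
    have e2 := S.pair_contrib hxj hxi hzj hzi hxz hij.symm hY h.ge
    have e3 : S.cnt x i (S.X j) (S.Y j) = S.cnt z i (S.X j) (S.Y j) := by
      unfold cnt
      have a1 := S.lt _ _ hxi
      have a2 := S.lt _ _ hzi
      have b1 : S.F x i (S.Y j) = S.X i := by rw [← h]; exact S.top _ _ hxi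
      have b2 : S.F z i (S.Y j) = S.X i := by rw [← h]; exact S.top _ _ hzi
      have c1 : S.Y x ≤ S.Y j := by linarith
      have c2 : S.Y z ≤ S.Y j := by linarith
      rw [b1, b2]
      simp only [c1, c2]
    rw [e1, e3, CharTwo.add_self_eq_zero, add_zero]
  · rw [S.pair_contrib hxj hxi hzj hzi hxz hij.symm hY h.le, S.cnt_above h, S.cnt_above h]
    ring

theorem theta_aux {x z a b c : V} (hxa : S.E x a) (hxb : S.E x b) (hxc : S.E x c)
    (hza : S.E z a) (hzb : S.E z b) (hzc : S.E z c) (hxz : x ≠ z) (hab : a ≠ b) (hac : a ≠ c)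
    (hbc : b ≠ c) (hY : S.Y x ≤ S.Y z) :
    S.inn x b z c a + S.inn x a z c b + S.inn x a z b c = 1 := by
  classical
  have e1 := S.pair_sum hxa hxb hza hzb hxz hab hY
  have e2 := S.pair_sum hxa hxc hza hzc hxz hac hY
  have e3 := S.pair_sum hxb hxc hzb hzc hxz hbc hY
  have e4 : S.inn x b z c a + S.inn x a z c b + S.inn x a z b c =
      ((S.cnt x b (S.X a) (S.Y a) + S.cnt z b (S.X a) (S.Y a)) +
      (S.cnt x a (S.X b) (S.Y b) + S.cnt z a (S.X b) (S.Y b))) +
      ((S.cnt x c (S.X a) (S.Y a) + S.cnt z c (S.X a) (S.Y a)) +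
      (S.cnt x a (S.X c) (S.Y c) + S.cnt z a (S.X c) (S.Y c))) +
      ((S.cnt x c (S.X b) (S.Y b) + S.cnt z c (S.X b) (S.Y b)) +
      (S.cnt x b (S.X c) (S.Y c) + S.cnt z b (S.X c) (S.Y c))) := by
    unfold inn par; ring
  rw [e4, e1, e2, e3]
  generalize (if S.F x a (S.Y z) < S.X z then (1 : ZMod 2) else 0) = A
  generalize (if S.F x b (S.Y z) < S.X z then (1 : ZMod 2) else 0) = B
  generalize (if S.F x c (S.Y z) < S.X z then (1 : ZMod 2) else 0) = C
  revert A B C
  decide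

/-- three tents on two common feet: an odd number of the three middle vertices is enclosed by the
other two tents -/
theorem theta {x z a b c : V} (hxa : S.E x a) (hxb : S.E x b) (hxc : S.E x c)
    (hza : S.E z a) (hzb : S.E z b) (hzc : S.E z c) (hxz : x ≠ z) (hab : a ≠ b) (hac : a ≠ c)
    (hbc : b ≠ c) : S.inn x b z c a + S.inn x a z c b + S.inn x a z b c = 1 := by
  rcases le_total (S.Y x) (S.Y z) with h | h
  · exact S.theta_aux hxa hxb hxc hza hzb hzc hxz hab hac hbc h
  · have := S.theta_aux hza hzb hzc hxa hxb hxc hxz.symm hab hac hbc h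
    unfold inn at this ⊢
    rw [S.par_swap x b z c, S.par_swap x a z c, S.par_swap x a z b]
    exact this

/-- In `K₃,₃` minus the edge `q p` the vertices `p` and `q` are on different sides of the 4-cycle
formed by the other four vertices. -/
theorem separate {x z y w p q : V} (hxy : S.E x y) (hxw : S.E x w) (hxp : S.E x p)
    (hzy : S.E z y) (hzw : S.E z w) (hzp : S.E z p) (hqy : S.E q y) (hqw : S.E q w)
    (hxz : x ≠ z) (hqx : q ≠ x) (hqz : q ≠ z) (hyw : y ≠ w) (hyp : y ≠ p) (hwp : w ≠ p) :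
    S.inn x y z w q + S.inn x y z w p = 1 := by
  have e1 : S.inn x w z p q = S.inn x w z p y :=
    S.inn_edge hxw hxp hzw hzp hqy hqx.symm hqz.symm hyw.symm hyp.symm
  have e2 : S.inn x y z p q = S.inn x y z p w :=
    S.inn_edge hxy hxp hzy hzp hqw hqx.symm hqz.symm hyw hwp.symm
  have e3 : S.inn x y z w q = S.inn x w z p q + S.inn x y z p q := by
    unfold inn par
    generalize S.cnt x y (S.X q) (S.Y q) = a1
    generalize S.cnt x w (S.X q) (S.Y q) = a2
    generalize S.cnt x p (S.X q) (S.Y q) = a3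
    generalize S.cnt z y (S.X q) (S.Y q) = a4
    generalize S.cnt z w (S.X q) (S.Y q) = a5
    generalize S.cnt z p (S.X q) (S.Y q) = a6
    revert a1 a2 a3 a4 a5 a6
    decide
  have e4 := S.theta hxy hxw hxp hzy hzw hzp hxz hyw hyp hwp
  rw [e3, e1, e2]
  exact e4

end Sys

end Pool.Agent.TH489.Up
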