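import Pool.Agent.TH489.Up.Core

set_option autoImplicit false

/-!
Consequences of odd parity: there are edges of the cycle on both sides, a sink above and a source
below.
-/

namespace Pool.Agent.TH489.Up

namespace Sys

variable {V : Type} (S : Sys V)

theorem left_of_par {x z y w : V} (hxy : S.E x y) (hxw : S.E x w) (hzy : S.E z y)
    (hzw : S.E z w) {a t : ℝ} (h : S.par x y z w a t = 1) :
    ∃ p q, (p = x ∨ p = z) ∧ (q = y ∨ q = w) ∧ S.E p q ∧ S.Y p ≤ t ∧ t ≤ S.Y q ∧
      S.F p q t < a := by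
  by_contra hc
  push Not at hc
  have key : ∀ p q, (p = x ∨ p = z) → (q = y ∨ q = w) → S.E p q → S.cnt p q a t = 0 := by
    intro p q hp hq hE
    unfold cnt
    rw [if_neg]
    rintro ⟨h1, h2, h3⟩
    exact absurd h3 (not_lt.2 (hc p q hp hq hE h1 h2))
  unfold par at h
  rw [key x y (Or.inl rfl) (Or.inl rfl) hxy, key x w (Or.inl rfl) (Or.inr rfl) hxw,
    key z y (Or.inr rfl) (Or.inl rfl) hzy, key z w (Or.inr rfl) (Or.inr rfl) hzw] at h
  revert h
  decide

theorem right_of_par {x z y w : V} (hxy : S.E x y) (hxw : S.E x w) (hzy : S.E z y)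
    (hzw : S.E z w) {a t : ℝ} (h : S.par x y z w a t = 1) :
    ∃ p q, (p = x ∨ p = z) ∧ (q = y ∨ q = w) ∧ S.E p q ∧ S.Y p ≤ t ∧ t ≤ S.Y q ∧
      a ≤ S.F p q t := by
  classical
  by_contra hc
  push Not at hc
  have key : ∀ p q, (p = x ∨ p = z) → (q = y ∨ q = w) → S.E p q → S.cnt p q a t =
      (if S.Y p ≤ t then 1 else 0) + (if S.Y q < t then 1 else 0) := by
    intro p q hp hq hE
    have l := S.lt _ _ hE
    unfold cnt
    by_cases c1 : S.Y p ≤ t
    · by_cases c2 : t ≤ S.Y q
      · have c3 : ¬ S.Y q < t := not_lt.2 c2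
        have c4 := hc p q hp hq hE c1 c2
        simp only [c1, c2, c3, c4, and_self, if_true, if_false, add_zero]
      · have c3 : S.Y q < t := not_le.1 c2
        simp only [c1, c2, c3, if_true, false_and, and_false, if_false]
        decide
    · have c3 : ¬ S.Y q < t := by
        intro hh; exact c1 (by linarith)
      simp only [c1, c3, false_and, if_false, add_zero]
  unfold par at h
  rw [key x y (Or.inl rfl) (Or.inl rfl) hxy, key x w (Or.inl rfl) (Or.inr rfl) hxw,
    key z y (Or.inr rfl) (Or.inl rfl) hzy, key z w (Or.inr rfl) (Or.inr rfl) hzw] at h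
  generalize (if S.Y x ≤ t then (1 : ZMod 2) else 0) = A at h
  generalize (if S.Y z ≤ t then (1 : ZMod 2) else 0) = B at h
  generalize (if S.Y y < t then (1 : ZMod 2) else 0) = C at h
  generalize (if S.Y w < t then (1 : ZMod 2) else 0) = D at h
  revert A B C D
  decide

theorem above_of_par {x z y w : V} (hxy : S.E x y) (hxw : S.E x w) (hzy : S.E z y)
    (hzw : S.E z w) {a t : ℝ} (h : S.par x y z w a t = 1) : t < S.Y y ∨ t < S.Y w := by
  classical
  by_contra hc
  push Not at hc
  obtain ⟨c1, c2⟩ := hc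
  have key : ∀ q, S.E x q → S.E z q → S.Y q ≤ t → S.cnt x q a t = S.cnt z q a t := by
    intro q h1 h2 hq
    have l1 := S.lt _ _ h1
    have l2 := S.lt _ _ h2
    unfold cnt
    rcases lt_or_eq_of_le hq with g | g
    · rw [if_neg, if_neg]
      · rintro ⟨-, g2, -⟩; linarith
      · rintro ⟨-, g2, -⟩; linarith
    · have e1 : S.F x q t = S.X q := by rw [← g]; exact S.top _ _ h1
      have e2 : S.F z q t = S.X q := by rw [← g]; exact S.top _ _ h2
      have e3 : S.Y x ≤ t := by linarith
      have e4 : S.Y z ≤ t := by linarith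
      rw [e1, e2]
      simp only [e3, e4]
  unfold par at h
  rw [key y hxy hzy c1, key w hxw hzw c2, CharTwo.add_self_eq_zero] at h
  revert h
  decide

theorem below_of_par {x z y w : V} (hxy : S.E x y) (hxw : S.E x w) (hzy : S.E z y)
    (hzw : S.E z w) {a t : ℝ} (h : S.par x y z w a t = 1) : S.Y x < t ∨ S.Y z < t := by
  classical
  by_contra hc
  push Not at hc
  obtain ⟨c1, c2⟩ := hc
  have key : ∀ p, S.E p y → S.E p w → t ≤ S.Y p → S.cnt p y a t = S.cnt p w a t := by
    intro p h1 h2 hp
    have l1 := S.lt _ _ h1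
    have l2 := S.lt _ _ h2
    unfold cnt
    rcases lt_or_eq_of_le hp with g | g
    · rw [if_neg, if_neg]
      · rintro ⟨g2, -, -⟩; linarith
      · rintro ⟨g2, -, -⟩; linarith
    · have e1 : S.F p y t = S.X p := by rw [g]; exact S.bot _ _ h1
      have e2 : S.F p w t = S.X p := by rw [g]; exact S.bot _ _ h2
      have e3 : t ≤ S.Y y := by linarith
      have e4 : t ≤ S.Y w := by linarith
      rw [e1, e2]
      simp only [e3, e4]
  unfold par at h
  rw [key x hxy hxw c1, key z hzy hzw c2, CharTwo.add_self_eq_zero, CharTwo.add_self_eq_zero,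
    add_zero] at h
  revert h
  decide

end Sys

end Pool.Agent.TH489.Up
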